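import Pool.Agent.Helper52.C2.Goals

/-!
PROJECT C2 (MP_2b0227_gt), packet LAU.
-/

namespace Pool.Agent.Helper59.C2

open LaurentPolynomial Pool.Agent.Helper52.C2

theorem lau_mul (p q : Polynomial ℤ) : lau (p * q) = lau p * lau q := by
  unfold lau
  rw [Polynomial.map_mul, map_mul]

theorem lau_add (p q : Polynomial ℤ) : lau (p + q) = lau p + lau q := by
  unfold lau
  rw [Polynomial.map_add, map_add]

theorem lau_monomial (n : ℕ) (a : ℤ) :
    lau (Polynomial.monomial n a) = C (a : ℝ) * T (n : ℤ) := by
  unfold lau
  rw [Polynomial.map_monomial, ← Polynomial.C_mul_X_pow_eq_monomial,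
    Polynomial.toLaurent_C_mul_X_pow]
  simp

theorem lau_coeff (p : Polynomial ℤ) (i : ℤ) :
    (lau p).coeff i = Pool.Agent.Helper37.Arb.seq p i := by
  induction p using Polynomial.induction_on' with
  | add p q hp hq =>
    rw [lau_add, AddMonoidAlgebra.coeff_add, Finsupp.add_apply, hp, hq]
    unfold Pool.Agent.Helper37.Arb.seq
    split_ifs
    · rw [Polynomial.coeff_add]; push_cast; ring
    · ring
  | monomial n a =>
    rw [lau_monomial, ← LaurentPolynomial.single_eq_C_mul_T, AddMonoidAlgebra.coeff_single,
      Finsupp.single_apply]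
    unfold Pool.Agent.Helper37.Arb.seq
    rw [Polynomial.coeff_monomial]
    by_cases h : (n : ℤ) = i
    · subst h; simp
    · rw [if_neg h]
      split_ifs with h1 h2
      · exfalso; apply h; omega
      · simp
      · rfl

theorem goalLau : GoalLau := by
  refine ⟨lau_mul, lau_add, ?_, ?_, lau_coeff⟩
  · have h := lau_monomial 0 1
    rw [Polynomial.monomial_zero_left, map_one] at h
    rw [h]; simp
  · have h := lau_monomial 1 1
    rw [Polynomial.monomial_one_one_eq_X] at h
    rw [h]; simp

end Pool.Agent.Helper59.C2
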